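import Mathlib

namespace Pool.Agent.Results.MP_859259_nt.Full

theorem aux : ∀ m : ℕ, (((2 * m).choose m : ℕ) : ZMod 3) = 0 ∨
    (((2 * m).choose m : ℕ) : ZMod 3) = (-1) ^ m := by
  have : Fact (Nat.Prime 3) := ⟨Nat.prime_three⟩
  intro m
  induction m using Nat.strong_induction_on with
  | _ m ih =>
    rcases Nat.eq_zero_or_pos m with rfl | hm
    · right; simp
    have L := Choose.choose_modEq_choose_mod_mul_choose_div_nat (n := 2 * m) (k := m) (p := 3)
    have L' := (ZMod.natCast_eq_natCast_iff _ _ 3).2 L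
    rw [L']
    push_cast
    obtain ⟨q, hq⟩ : ∃ q, m = 3 * q ∨ m = 3 * q + 1 ∨ m = 3 * q + 2 := ⟨m / 3, by omega⟩
    rcases hq with rfl | rfl | rfl
    · rw [show 2 * (3 * q) % 3 = 0 by omega, show 3 * q % 3 = 0 by omega,
        show 2 * (3 * q) / 3 = 2 * q by omega, show 3 * q / 3 = q by omega]
      rcases ih q (by omega) with h | h
      · left; rw [h]; simp
      · right; rw [h, pow_mul]; norm_num
    · rw [show 2 * (3 * q + 1) % 3 = 2 by omega, show (3 * q + 1) % 3 = 1 by omega,
        show 2 * (3 * q + 1) / 3 = 2 * q by omega, show (3 * q + 1) / 3 = q by omega]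
      rcases ih q (by omega) with h | h
      · left; rw [h]; simp
      · right
        rw [h, pow_succ, pow_mul]
        have : (((2 : ℕ).choose 1 : ℕ) : ZMod 3) = -1 := by
          rw [Nat.choose_one_right]; rfl
        rw [this]; norm_num
    · rw [show 2 * (3 * q + 2) % 3 = 1 by omega, show (3 * q + 2) % 3 = 2 by omega]
      left; simp

theorem result : ∃ (a b p r : ℕ), 0 < b ∧ b < a ∧ p.Prime ∧ Nat.gcd p a = 1 ∧ r < p ∧
    ∀ n : ℕ, ¬ ((a * n).choose (b * n) ≡ r [MOD p]) := by
  refine ⟨4, 2, 3, 2, by norm_num, by norm_num, Nat.prime_three, by norm_num, by norm_num,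
    fun n h => ?_⟩
  have h' := (ZMod.natCast_eq_natCast_iff _ _ 3).2 h
  have := aux (2 * n)
  rw [show 2 * (2 * n) = 4 * n by ring, h', pow_mul] at this
  rcases this with h1 | h1
  · exact absurd h1 (by decide)
  · rw [neg_one_sq, one_pow] at h1
    exact absurd h1 (by decide)

end Pool.Agent.Results.MP_859259_nt.Full
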